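import Pool.Agent.Run7.h83.FP.Asm
import Pool.Agent.Run7.h83.FP.Even
import Pool.Agent.Run7.h83.FP.H957
import Pool.Agent.Run7.h83.FP.H220
import Pool.Agent.Run7.h83.FP.H269
import Pool.Agent.Run7.h83.FP.H475
import Pool.Agent.Run7.h83.FP.H633
import Pool.Agent.Run7.h83.FP.H364
import Pool.Agent.Run7.h83.FP.H915
import Pool.Agent.Run7.h83.FP.H299

/-!
# The fixed point property along maximal chains of order relations (MP_eb30e1, Q2)

For `n ≥ 2`, the largest number of adjacencies `≤_i ≺ ≤_(i+1)` of a maximal chain of order relations on `[n]` for which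
`≤_i` lacks the fixed point property and `≤_(i+1)` has it is `⌊(n - 2)² / 4⌋ + 1` (and `0` for `n = 1`).

Upper bound: such an adjacency has `n - 2 ≤ i` (an order with the FPP on at least two points has a connected comparability
graph) and `n ≤ 2 (T - i)`, `T = n.choose 2` (an order without the FPP has at least `n / 2` incomparable pairs), and two
consecutive steps are not both such adjacencies. Lower bound: an explicit chain, built recursively, which alternates
between members without and with the FPP in the whole range.
-/

set_option autoImplicit false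

namespace Pool.Agent.Results.MP_eb30e1_co.MostAdjacencies

open Finset
open Pool.Agent.Results.MP_eb30e1_co.FewestMembers (IsOrder FPP IsMaximalChain chain_one)

open Classical in
/-- The number of adjacencies `r i ≺ r (i + 1)` for which `r i` lacks the fixed point property and `r (i + 1)` has it. -/
noncomputable def countAdjacencies {α : Type} (T : ℕ) (r : ℕ → α → α → Prop) : ℕ :=
  ((range T).filter (fun i => ¬ FPP (r i) ∧ FPP (r (i + 1)))).card

/-- **Result.** For every `n ≥ 1`, the largest number of adjacencies without / with the fixed point property in a maximal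
chain of order relations on an `n`-element set is `⌊(n - 2)² / 4⌋ + 1` if `n ≥ 2`, and `0` if `n = 1`. -/
theorem result (n : ℕ) (hn : 1 ≤ n) :
    IsGreatest {k : ℕ | ∃ r : ℕ → Fin n → Fin n → Prop,
      IsMaximalChain (n.choose 2) r ∧ k = countAdjacencies (n.choose 2) r}
      (if n = 1 then 0 else (n - 2) ^ 2 / 4 + 1) := by
  rcases Nat.lt_or_ge n 2 with h | h
  · obtain rfl : n = 1 := by omega
    rw [if_pos rfl]
    refine ⟨⟨_, chain_one, ?_⟩, ?_⟩
    · classical
      simp [countAdjacencies]
    · rintro k ⟨r, -, rfl⟩
      classical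
      simp [countAdjacencies]
  · rw [if_neg (by omega)]
    exact Run7.h83.FP.main_of Run7.h269.FP.t_UP Run7.h269.FP.t_DOWN Run7.h633.FP.t_SEQ
      (Run7.h220.FP.t_UB Run7.h364.FP.t_CON) Run7.h957.FP.t_ONE Run7.h957.FP.t_TRA Run7.h957.FP.t_JOIN
      (Run7.h83.FP.Bk.t_EVEN Run7.h957.FP.t_RET) Run7.h299.FP.t_EID (Run7.h915.FP.t_ODD Run7.h957.FP.t_RET)
      Run7.h475.FP.t_OID n h

end Pool.Agent.Results.MP_eb30e1_co.MostAdjacencies
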